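import Mathlib

set_option autoImplicit false

open Finset

namespace Pool.Agent.Results.MP_1bfbc2_co.LabeledCount

/-! ### The objects -/

/-- Number of labeled self-complementary graphs of order `p`. -/
noncomputable def numGraphs (p : ℕ) : ℕ :=
  Nat.card {G : SimpleGraph (Fin p) // Nonempty (G ≃g Gᶜ)}

/-- A labeled digraph of order `p`: its arcs are ordered pairs of distinct vertices. -/
structure Dig (p : ℕ) where
  /-- `D.Arc u v` says that `(u, v)` is an arc -/
  Arc : Fin p → Fin p → Prop
  /-- no loops -/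
  loopless : ∀ v, ¬ Arc v v

/-- The complement of a digraph. -/
def Dig.compl {p : ℕ} (D : Dig p) : Dig p where
  Arc u v := u ≠ v ∧ ¬ D.Arc u v
  loopless := fun _ h => h.1 rfl

/-- Isomorphism of labeled digraphs. -/
def Dig.Iso {p : ℕ} (D D' : Dig p) : Prop :=
  ∃ f : Equiv.Perm (Fin p), ∀ u v, D.Arc u v ↔ D'.Arc (f u) (f v)

/-- Number of labeled self-complementary digraphs of order `p`. -/
noncomputable def numDigraphs (p : ℕ) : ℕ :=
  Nat.card {D : Dig p // D.Iso D.compl}

/-! ### The formula -/

section formula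

variable {E : Type} {ι : Type}

/-- Number of orbits on `E` of the group generated by the permutations `act σ`, `σ ∈ T`. -/
noncomputable def orbits (act : ι → Equiv.Perm E) (T : Finset ι) : ℕ :=
  Nat.card (Quot (fun e e' : E => ∃ σ ∈ T, act σ e = e'))

/-- Number of orbits on `E × {+,-}` of the group generated by the sign changing maps
`(e, s) ↦ (act σ e, -s)`, `σ ∈ T`. -/
noncomputable def signedOrbits (act : ι → Equiv.Perm E) (T : Finset ι) : ℕ :=
  Nat.card (Quot (fun e e' : E × Bool => ∃ σ ∈ T, act σ e.1 = e'.1 ∧ e'.2 = !e.2))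

/-- The summand. -/
noncomputable def weight (act : ι → Equiv.Perm E) (T : Finset ι) : ℕ :=
  if signedOrbits act T = 2 * orbits act T then 2 ^ orbits act T else 0

/-- The alternating sum of the weights over all nonempty sets `T`. -/
noncomputable def total (act : ι → Equiv.Perm E) (S : Finset ι) : ℤ :=
  ∑ T ∈ S.powerset with T.Nonempty, (-1) ^ (T.card + 1) * (weight act T : ℤ)

end formula

/-! ### Counting with a prescribed set of sign reversing permutations -/

section core

variable {E ι : Type}

theorem orbits_split (act : ι → Equiv.Perm E) (T : Finset ι) [Finite E] (x : E → Bool)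
    (hx : ∀ σ ∈ T, ∀ e, x (act σ e) = !x e) :
    signedOrbits act T = 2 * orbits act T := by
  have h : Quot (fun e e' : E × Bool => ∃ σ ∈ T, act σ e.1 = e'.1 ∧ e'.2 = !e.2) ≃
      Bool × Quot (fun e e' : E => ∃ σ ∈ T, act σ e = e') := by
    refine ⟨Quot.lift (fun p => (xor p.2 (x p.1), Quot.mk _ p.1)) ?_,
      fun q => Quot.lift (fun e => Quot.mk _ (e, xor q.1 (x e))) ?_ q.2, ?_, ?_⟩
    · rintro ⟨e, s⟩ ⟨e', s'⟩ ⟨σ, hσ, h1, h2⟩
      simp only at h1 h2
      subst h1 h2
      refine Prod.ext ?_ (Quot.sound ⟨σ, hσ, rfl⟩)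
      simp only [hx σ hσ]
      cases s <;> cases x e <;> rfl
    · rintro e e' ⟨σ, hσ, h1⟩
      subst h1
      apply Quot.sound
      refine ⟨σ, hσ, rfl, ?_⟩
      simp only [hx σ hσ]
      cases q.1 <;> cases x e <;> rfl
    · intro q
      induction q using Quot.ind with
      | _ p =>
        obtain ⟨e, s⟩ := p
        simp
    · rintro ⟨t, q⟩
      induction q using Quot.ind with
      | _ e => simp
  unfold signedOrbits orbits
  rw [Nat.card_congr h, Nat.card_prod]
  simp

theorem card_eq_pow (act : ι → Equiv.Perm E) (T : Finset ι) [Finite E] (x : E → Bool)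
    (hx : ∀ σ ∈ T, ∀ e, x (act σ e) = !x e) :
    Nat.card {y : E → Bool // ∀ σ ∈ T, ∀ e, y (act σ e) = !y e} = 2 ^ orbits act T := by
  have h : {y : E → Bool // ∀ σ ∈ T, ∀ e, y (act σ e) = !y e} ≃
      (Quot (fun e e' : E => ∃ σ ∈ T, act σ e = e') → Bool) := by
    refine ⟨fun y => Quot.lift (fun e => xor (y.1 e) (x e)) ?_,
      fun f => ⟨fun e => xor (f (Quot.mk _ e)) (x e), ?_⟩, ?_, ?_⟩
    · rintro e e' ⟨σ, hσ, h1⟩
      subst h1
      simp only [hx σ hσ, y.2 σ hσ]
      cases y.1 e <;> cases x e <;> rfl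
    · intro σ hσ e
      have : (Quot.mk (fun e e' : E => ∃ σ ∈ T, act σ e = e') (act σ e)) = Quot.mk _ e :=
        (Quot.sound ⟨σ, hσ, rfl⟩).symm
      simp only [this, hx σ hσ]
      cases f (Quot.mk _ e) <;> cases x e <;> rfl
    · intro y
      apply Subtype.ext
      funext e
      simp
    · intro f
      funext q
      induction q using Quot.ind with
      | _ e => simp
  rw [Nat.card_congr h, Nat.card_fun]
  unfold orbits
  simp

theorem exists_of_split (act : ι → Equiv.Perm E) (T : Finset ι) [Finite E]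
    (h : signedOrbits act T = 2 * orbits act T) :
    ∃ x : E → Bool, ∀ σ ∈ T, ∀ e, x (act σ e) = !x e := by
  classical
  set R : E → E → Prop := fun e e' : E => ∃ σ ∈ T, act σ e = e' with hR
  set R' : E × Bool → E × Bool → Prop :=
    fun e e' : E × Bool => ∃ σ ∈ T, act σ e.1 = e'.1 ∧ e'.2 = !e.2 with hR'
  let flip : Quot R' → Quot R' := Quot.lift (fun p => Quot.mk R' (p.1, !p.2)) (by
    rintro ⟨e, s⟩ ⟨e', s'⟩ ⟨σ, hσ, h1, h2⟩
    simp only at h1 h2
    subst h1 h2
    exact Quot.sound ⟨σ, hσ, rfl, rfl⟩)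
  have hflip : ∀ e s, flip (Quot.mk R' (e, s)) = Quot.mk R' (e, !s) := fun _ _ => rfl
  have hreach : ∀ e e', Relation.EqvGen R e e' → ∀ s, ∃ s', Quot.mk R' (e, s) = Quot.mk R' (e', s') := by
    intro e e' hee
    induction hee with
    | rel e e' h1 =>
      obtain ⟨σ, hσ, rfl⟩ := h1
      intro s
      exact ⟨!s, Quot.sound ⟨σ, hσ, rfl, rfl⟩⟩
    | refl e => exact fun s => ⟨s, rfl⟩
    | symm e e' _ ih =>
      intro s
      obtain ⟨s', hs'⟩ := ih s
      by_cases hs : s' = s
      · exact ⟨s, by rw [hs'.trans (by rw [hs])]⟩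
      · have h2 : s = !s' := by revert hs; cases s <;> cases s' <;> simp
        refine ⟨!s, ?_⟩
        have := congrArg flip hs'
        rw [hflip, hflip] at this
        rw [this, ← h2]
    | trans e e' e'' _ _ ih1 ih2 =>
      intro s
      obtain ⟨s', hs'⟩ := ih1 s
      obtain ⟨s'', hs''⟩ := ih2 s'
      exact ⟨s'', hs'.trans hs''⟩
  let Φ : Bool × Quot R → Quot R' := fun q => Quot.mk R' (q.2.out, q.1)
  have hsurj : Function.Surjective Φ := by
    intro q
    induction q using Quot.ind with
    | _ p =>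
      obtain ⟨e, s⟩ := p
      have h1 : Relation.EqvGen R e (Quot.mk R e).out :=
        Quot.eqvGen_exact (by rw [Quot.out_eq])
      obtain ⟨s', hs'⟩ := hreach _ _ h1 s
      exact ⟨(s', Quot.mk R e), hs'.symm⟩
  have hcard : Nat.card (Bool × Quot R) = Nat.card (Quot R') := by
    rw [Nat.card_prod]
    have h' : Nat.card (Quot R') = 2 * Nat.card (Quot R) := h
    rw [h']
    simp
  have : Finite (Quot R) := Quot.finite R
  have : Finite (Quot R') := Quot.finite R'
  have hbij : Function.Bijective Φ := by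
    have := Fintype.ofFinite (Bool × Quot R)
    have := Fintype.ofFinite (Quot R')
    rw [Fintype.bijective_iff_surjective_and_card]
    refine ⟨hsurj, ?_⟩
    rw [← Nat.card_eq_fintype_card, ← Nat.card_eq_fintype_card, hcard]
  let Ψ := (Equiv.ofBijective Φ hbij).symm
  have hΨ : ∀ q, Φ (Ψ q) = q := fun q => (Equiv.ofBijective Φ hbij).apply_symm_apply q
  refine ⟨fun e => (Ψ (Quot.mk R' (e, false))).1, ?_⟩
  intro σ hσ e
  have h1 : Quot.mk R' (act σ e, false) = Quot.mk R' (e, true) :=
    (Quot.sound ⟨σ, hσ, rfl, rfl⟩ : Quot.mk R' (e, true) = Quot.mk R' (act σ e, false)).symm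
  simp only
  rw [h1]
  have h2 : Quot.mk R' (e, true) = flip (Quot.mk R' (e, false)) := rfl
  have h3 : Ψ (Quot.mk R' (e, true)) = (!(Ψ (Quot.mk R' (e, false))).1,
      (Ψ (Quot.mk R' (e, false))).2) := by
    apply hbij.1
    rw [hΨ, h2]
    conv_lhs => rw [← hΨ (Quot.mk R' (e, false))]
  rw [h3]

theorem card_eq_weight (act : ι → Equiv.Perm E) (T : Finset ι) [Finite E] :
    Nat.card {y : E → Bool // ∀ σ ∈ T, ∀ e, y (act σ e) = !y e} = weight act T := by
  unfold weight
  split_ifs with h
  · obtain ⟨x, hx⟩ := exists_of_split act T h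
    exact card_eq_pow act T x hx
  · rw [Nat.card_eq_zero]
    left
    rw [isEmpty_subtype]
    intro x hx
    exact h (orbits_split act T x hx)

/-- Inclusion-exclusion. -/
theorem card_exists_eq_total (act : ι → Equiv.Perm E) (S : Finset ι) [Finite E] :
    (Nat.card {y : E → Bool // ∃ σ ∈ S, ∀ e, y (act σ e) = !y e} : ℤ) = total act S := by
  classical
  have := Fintype.ofFinite E
  let F : (E → Bool) → Finset ι := fun y => S.filter (fun σ => ∀ e, y (act σ e) = !y e)
  have h1 : (Nat.card {y : E → Bool // ∃ σ ∈ S, ∀ e, y (act σ e) = !y e} : ℤ) =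
      ∑ y : E → Bool, (if F y = ∅ then 0 else 1) := by
    rw [Nat.card_eq_fintype_card, Fintype.card_subtype, Finset.card_filter]
    push_cast
    apply Finset.sum_congr rfl
    intro y _
    by_cases hy : ∃ σ ∈ S, ∀ e, y (act σ e) = !y e
    · rw [if_pos hy, if_neg]
      obtain ⟨σ, hσ, h⟩ := hy
      exact Finset.Nonempty.ne_empty ⟨σ, Finset.mem_filter.2 ⟨hσ, h⟩⟩
    · rw [if_neg hy, if_pos]
      rw [Finset.filter_eq_empty_iff]
      intro σ hσ h
      exact hy ⟨σ, hσ, h⟩
  have h2 : ∀ T ∈ S.powerset, (weight act T : ℤ) =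
      ∑ y : E → Bool, (if T ⊆ F y then 1 else 0) := by
    intro T hT
    rw [← card_eq_weight, Nat.card_eq_fintype_card, Fintype.card_subtype, Finset.card_filter]
    push_cast
    apply Finset.sum_congr rfl
    intro y _
    have : (∀ σ ∈ T, ∀ e, y (act σ e) = !y e) ↔ T ⊆ F y := by
      constructor
      · intro h σ hσ
        exact Finset.mem_filter.2 ⟨Finset.mem_powerset.1 hT hσ, h σ hσ⟩
      · intro h σ hσ
        exact (Finset.mem_filter.1 (h hσ)).2
    simp only [this]
  have h3 : total act S = ∑ y : E → Bool, ∑ T ∈ S.powerset with T.Nonempty,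
      (-1 : ℤ) ^ (T.card + 1) * (if T ⊆ F y then 1 else 0) := by
    unfold total
    rw [Finset.sum_comm]
    apply Finset.sum_congr rfl
    intro T hT
    rw [h2 T (Finset.mem_filter.1 hT).1, Finset.mul_sum]
  rw [h1, h3]
  apply Finset.sum_congr rfl
  intro y _
  have hFS : F y ⊆ S := Finset.filter_subset _ _
  have h4 : ∑ T ∈ S.powerset with T.Nonempty, (-1 : ℤ) ^ (T.card + 1) * (if T ⊆ F y then 1 else 0)
      = 1 - ∑ T ∈ (F y).powerset, (-1 : ℤ) ^ T.card := by
    have h5 : (F y).powerset = insert ∅ ((S.powerset.filter (·.Nonempty)).filter (· ⊆ F y)) := by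
      ext T
      simp only [Finset.mem_powerset, Finset.mem_insert, Finset.mem_filter]
      constructor
      · intro h
        rcases T.eq_empty_or_nonempty with h0 | h0
        · exact Or.inl h0
        · exact Or.inr ⟨⟨h.trans hFS, h0⟩, h⟩
      · rintro (rfl | h)
        · exact Finset.empty_subset _
        · exact h.2
    rw [h5, Finset.sum_insert (by simp)]
    simp only [Finset.card_empty, pow_zero]
    rw [Finset.sum_filter (p := (· ⊆ F y)), ← sub_sub, sub_self, zero_sub, ← Finset.sum_neg_distrib]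
    apply Finset.sum_congr rfl
    intro T _
    split_ifs
    · rw [pow_succ]; ring
    · ring
  rw [h4, Finset.sum_powerset_neg_one_pow_card]
  split_ifs <;> simp

end core

/-! ### Actions on pairs of vertices -/

/-- Unordered pairs of distinct vertices. -/
abbrev Pairs (p : ℕ) : Type := {e : Sym2 (Fin p) // ¬ e.IsDiag}

/-- Ordered pairs of distinct vertices. -/
abbrev OrdPairs (p : ℕ) : Type := {e : Fin p × Fin p // e.1 ≠ e.2}

/-- The action of a permutation of the vertices on unordered pairs, `uv ↦ σ(u)σ(v)`. -/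
def actPairs {p : ℕ} (σ : Equiv.Perm (Fin p)) : Equiv.Perm (Pairs p) where
  toFun e := ⟨Sym2.map σ e.1, fun h => e.2 ((Sym2.isDiag_map σ.injective).1 h)⟩
  invFun e := ⟨Sym2.map σ.symm e.1, fun h => e.2 ((Sym2.isDiag_map σ.symm.injective).1 h)⟩
  left_inv e := by
    apply Subtype.ext
    simp [Sym2.map_map]
  right_inv e := by
    apply Subtype.ext
    simp [Sym2.map_map]

/-- The action of a permutation of the vertices on ordered pairs, `(u,v) ↦ (σ(u),σ(v))`. -/
def actOrdPairs {p : ℕ} (σ : Equiv.Perm (Fin p)) : Equiv.Perm (OrdPairs p) where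
  toFun e := ⟨(σ e.1.1, σ e.1.2), fun h => e.2 (σ.injective h)⟩
  invFun e := ⟨(σ.symm e.1.1, σ.symm e.1.2), fun h => e.2 (σ.symm.injective h)⟩
  left_inv e := by
    apply Subtype.ext
    simp
  right_inv e := by
    apply Subtype.ext
    simp

open Classical in
/-- The permutations of the vertices whose order is a power of two. -/
noncomputable def twoPerms (p : ℕ) : Finset (Equiv.Perm (Fin p)) :=
  Finset.univ.filter (fun σ => ∃ k, orderOf σ = 2 ^ k)

theorem mem_twoPerms {p : ℕ} (σ : Equiv.Perm (Fin p)) :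
    σ ∈ twoPerms p ↔ ∃ k, orderOf σ = 2 ^ k := by
  classical
  simp [twoPerms]

theorem exists_twoPerm {E : Type} {p : ℕ} (act : Equiv.Perm (Fin p) → Equiv.Perm E)
    (hmul : ∀ σ τ e, act (σ * τ) e = act σ (act τ e)) (y : E → Bool) :
    (∃ σ, ∀ e, y (act σ e) = !y e) ↔ ∃ σ ∈ twoPerms p, ∀ e, y (act σ e) = !y e := by
  constructor
  · rintro ⟨σ, hσ⟩
    have h1 : ∀ e, act 1 e = e := by
      intro e
      apply (act 1).injective
      rw [← hmul, one_mul]
    have h2 : ∀ k e, y (act (σ ^ k) e) = if Even k then y e else !y e := by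
      intro k
      induction k with
      | zero => intro e; simp [h1]
      | succ k ih =>
        intro e
        rw [pow_succ', hmul, hσ, ih]
        by_cases hk : Even k
        · have : ¬ Even (k + 1) := by rw [Nat.even_add_one]; simpa using hk
          simp [hk, this]
        · have : Even (k + 1) := by rw [Nat.even_add_one]; exact hk
          simp [hk, this]
    obtain ⟨a, m, hm, ho⟩ := Nat.exists_eq_two_pow_mul_odd (orderOf_pos σ).ne'
    refine ⟨σ ^ m, ?_, ?_⟩
    · rw [mem_twoPerms]
      refine ⟨a, ?_⟩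
      rw [orderOf_pow_of_dvd hm.pos.ne' (by rw [ho]; exact dvd_mul_left _ _), ho,
        Nat.mul_div_cancel _ hm.pos]
    · intro e
      rw [h2, if_neg (Nat.not_even_iff_odd.2 hm)]
  · rintro ⟨σ, _, h⟩
    exact ⟨σ, h⟩

open Classical in
/-- A graph as a two-valued function on unordered pairs. -/
noncomputable def graphEquiv (p : ℕ) : SimpleGraph (Fin p) ≃ (Pairs p → Bool) where
  toFun G := fun e => decide (e.1 ∈ G.edgeSet)
  invFun y := SimpleGraph.fromEdgeSet {e | ∃ h : ¬ e.IsDiag, y ⟨e, h⟩ = true}
  left_inv G := by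
    ext u v
    rw [SimpleGraph.fromEdgeSet_adj]
    constructor
    · rintro ⟨⟨h, h1⟩, h2⟩
      simpa using h1
    · intro h
      refine ⟨⟨by simpa using h.ne, by simpa using h⟩, h.ne⟩
  right_inv y := by
    funext e
    obtain ⟨e, he⟩ := e
    induction e using Sym2.ind with
    | _ u v =>
      have huv : u ≠ v := by simpa using he
      simp [he]

open Classical in
/-- A digraph as a two-valued function on ordered pairs. -/
noncomputable def digEquiv (p : ℕ) : Dig p ≃ (OrdPairs p → Bool) where
  toFun D := fun e => decide (D.Arc e.1.1 e.1.2)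
  invFun y := ⟨fun u v => ∃ h : u ≠ v, y ⟨(u, v), h⟩ = true, fun v h => h.1 rfl⟩
  left_inv D := by
    obtain ⟨A, hA⟩ := D
    rw [Dig.mk.injEq]
    funext u v
    apply propext
    constructor
    · rintro ⟨h, h1⟩
      simpa using h1
    · intro h
      refine ⟨?_, by simpa using h⟩
      rintro rfl
      exact hA u h
  right_inv y := by
    funext e
    obtain ⟨⟨u, v⟩, he⟩ := e
    have huv : u ≠ v := he
    simp [huv]

theorem graph_sc_iff {p : ℕ} (G : SimpleGraph (Fin p)) :
    Nonempty (G ≃g Gᶜ) ↔ ∃ σ : Equiv.Perm (Fin p), ∀ e, graphEquiv p G (actPairs σ e) =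
      !graphEquiv p G e := by
  constructor
  · rintro ⟨f⟩
    refine ⟨f.toEquiv, ?_⟩
    rintro ⟨e, he⟩
    induction e using Sym2.ind with
    | _ u v =>
      have huv : u ≠ v := by simpa using he
      have h1 := f.map_rel_iff (a := u) (b := v)
      rw [SimpleGraph.compl_adj] at h1
      have h2 : f u ≠ f v := fun h => huv (f.injective h)
      simp only [graphEquiv, actPairs, Equiv.coe_fn_mk, Sym2.map_mk, SimpleGraph.mem_edgeSet]
      by_cases h3 : G.Adj u v
      · have h4 := h1.2 h3
        have h5 : ¬ G.Adj (f u) (f v) := h4.2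
        simp [h3, h5]
      · have h5 : G.Adj (f u) (f v) := by
          by_contra h6
          exact h3 (h1.1 ⟨h2, h6⟩)
        simp [h3, h5]
  · rintro ⟨σ, hσ⟩
    refine ⟨⟨σ, ?_⟩⟩
    intro u v
    rw [SimpleGraph.compl_adj]
    by_cases huv : u = v
    · subst huv
      simp
    · have h1 := hσ ⟨s(u, v), by simpa using huv⟩
      simp only [graphEquiv, actPairs, Equiv.coe_fn_mk, Sym2.map_mk, SimpleGraph.mem_edgeSet] at h1
      have h2 : σ u ≠ σ v := fun h => huv (σ.injective h)
      by_cases h3 : G.Adj u v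
      · simp [h3] at h1
        simp [h3, h1, h2]
      · simp [h3] at h1
        simp [h3, h1]

theorem dig_sc_iff {p : ℕ} (D : Dig p) :
    D.Iso D.compl ↔ ∃ σ : Equiv.Perm (Fin p), ∀ e, digEquiv p D (actOrdPairs σ e) =
      !digEquiv p D e := by
  unfold Dig.Iso
  apply exists_congr
  intro σ
  constructor
  · intro f
    rintro ⟨⟨u, v⟩, he⟩
    have huv : u ≠ v := he
    have h1 := f u v
    have h2 : σ u ≠ σ v := fun h => huv (σ.injective h)
    simp only [digEquiv, actOrdPairs, Equiv.coe_fn_mk]
    by_cases h3 : D.Arc u v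
    · have h4 := h1.1 h3
      have h5 : ¬ D.Arc (σ u) (σ v) := h4.2
      simp [h3, h5]
    · have h5 : D.Arc (σ u) (σ v) := by
        by_contra h6
        exact h3 (h1.2 ⟨h2, h6⟩)
      simp [h3, h5]
  · intro hσ u v
    change D.Arc u v ↔ (σ u ≠ σ v ∧ ¬ D.Arc (σ u) (σ v))
    by_cases huv : u = v
    · subst huv
      have := D.loopless u
      simp [this]
    · have h1 := hσ ⟨(u, v), huv⟩
      simp only [digEquiv, actOrdPairs, Equiv.coe_fn_mk] at h1
      have h2 : σ u ≠ σ v := fun h => huv (σ.injective h)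
      by_cases h3 : D.Arc u v
      · simp [h3] at h1
        simp [h3, h1, huv]
      · simp [h3] at h1
        simp [h3, h1]

/-- The number of labeled self-complementary graphs and the number of labeled self-complementary
digraphs of order `p`, as alternating sums over the nonempty sets `T` of permutations of
2-power order; the term of `T` is `2 ^ (orbits on pairs)` if there are exactly twice as many orbits
on signed pairs, and zero otherwise. -/
theorem result (p : ℕ) :
    (numGraphs p : ℤ) = ∑ T ∈ (twoPerms p).powerset with T.Nonempty,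
      (-1) ^ (T.card + 1) *
        (if signedOrbits (actPairs (p := p)) T = 2 * orbits (actPairs (p := p)) T
          then 2 ^ orbits (actPairs (p := p)) T else 0) ∧
    (numDigraphs p : ℤ) = ∑ T ∈ (twoPerms p).powerset with T.Nonempty,
      (-1) ^ (T.card + 1) *
        (if signedOrbits (actOrdPairs (p := p)) T = 2 * orbits (actOrdPairs (p := p)) T
          then 2 ^ orbits (actOrdPairs (p := p)) T else 0) := by
  have hw : ∀ {E : Type} (act : Equiv.Perm (Fin p) → Equiv.Perm E),
      (∑ T ∈ (twoPerms p).powerset with T.Nonempty,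
      (-1 : ℤ) ^ (T.card + 1) *
        (if signedOrbits act T = 2 * orbits act T
          then 2 ^ orbits act T else 0)) = total act (twoPerms p) := by
    intro E act
    unfold total
    apply Finset.sum_congr rfl
    intro T _
    congr 1
    unfold weight
    split_ifs <;> simp
  rw [hw, hw, ← card_exists_eq_total, ← card_exists_eq_total]
  constructor
  · norm_cast
    unfold numGraphs
    apply Nat.card_congr
    refine (graphEquiv p).subtypeEquiv ?_
    intro G
    rw [graph_sc_iff, exists_twoPerm]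
    intro σ τ e
    apply Subtype.ext
    change Sym2.map (σ * τ) e.1 = Sym2.map σ (Sym2.map τ e.1)
    rw [Sym2.map_map]
    rfl
  · norm_cast
    unfold numDigraphs
    apply Nat.card_congr
    refine (digEquiv p).subtypeEquiv ?_
    intro G
    rw [dig_sc_iff, exists_twoPerm]
    intro σ τ e
    rfl

end Pool.Agent.Results.MP_1bfbc2_co.LabeledCount
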